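import Pool.Agent.LPW.StmtsC

/-!
# Squad LPW, row CFB: irreducible curves with many integral points have small equations
-/

set_option autoImplicit false

open MvPolynomial

namespace Pool.Agent.LPW.H44

open Pool.Agent.LPW

/-- an exponent -/
noncomputable def ex (f : Fin 2 → ℕ) : Fin 2 →₀ ℕ := Finsupp.equivFunOnFinite.symm f

theorem ex_apply (f : Fin 2 → ℕ) (i : Fin 2) : ex f i = f i := rfl

theorem ex_inj {f g : Fin 2 → ℕ} (h : ex f = ex g) : f = g :=
  Finsupp.equivFunOnFinite.symm.injective h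

theorem ex_surj (s : Fin 2 →₀ ℕ) : ex s = s := by
  ext i
  rfl

/-- an injective enumeration of `Ld d` pairs of degree at most `d` contains all of them -/
theorem enum_surj (d : ℕ) (x : Fin (Ld d) → Fin 2 → ℕ) (hx : Function.Injective x)
    (hd : ∀ a, x a 0 + x a 1 ≤ d) (f : Fin 2 → ℕ) (hf : f 0 + f 1 ≤ d) : ∃ a, x a = f := by
  classical
  let M : Finset (Fin 2 → ℕ) := ((Finset.range (d + 1)).biUnion fun c =>
    Finset.HasAntidiagonal.antidiagonal c).image fun p => ![p.1, p.2]
  have hM : ∀ g : Fin 2 → ℕ, g 0 + g 1 ≤ d → g ∈ M := by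
    intro g hg
    refine Finset.mem_image.2 ⟨(g 0, g 1), ?_, ?_⟩
    · rw [Finset.mem_biUnion]
      exact ⟨g 0 + g 1, Finset.mem_range.2 (by omega), Finset.HasAntidiagonal.mem_antidiagonal.2 rfl⟩
    · funext i
      fin_cases i
      · rfl
      · rfl
  have hcard : M.card ≤ Ld d := by
    refine Finset.card_image_le.trans (Finset.card_biUnion_le.trans ?_)
    unfold Ld
    exact Finset.sum_le_sum fun c _ => (Finset.Nat.card_antidiagonal c).le
  have hsub : Finset.univ.image x ⊆ M := by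
    intro g hg
    obtain ⟨a, -, rfl⟩ := Finset.mem_image.1 hg
    exact hM _ (hd a)
  have hc2 : (Finset.univ.image x).card = Ld d := by
    rw [Finset.card_image_of_injective _ hx, Finset.card_univ, Fintype.card_fin]
  have heq : Finset.univ.image x = M := Finset.eq_of_subset_of_card_le hsub (by rw [hc2]; exact hcard)
  have h1 := hM f hf
  rw [← heq] at h1
  obtain ⟨a, -, ha⟩ := Finset.mem_image.1 h1
  exact ⟨a, ha⟩

/-- the polynomial with given coefficients -/
noncomputable def pol {R : Type} [CommRing R] {L : ℕ} (x : Fin L → Fin 2 → ℕ) (y : Fin L → R) :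
    MvPolynomial (Fin 2) R := ∑ a, monomial (ex (x a)) (y a)

section

variable {R : Type} [CommRing R] {L : ℕ} (x : Fin L → Fin 2 → ℕ) (y : Fin L → R)

theorem coeff_pol (hx : Function.Injective x) (a : Fin L) : coeff (ex (x a)) (pol x y) = y a := by
  classical
  unfold pol
  rw [coeff_sum, Finset.sum_eq_single a]
  · rw [coeff_monomial, if_pos rfl]
  · intro b _ hb
    rw [coeff_monomial, if_neg]
    intro h
    exact hb (hx (ex_inj h))
  · intro h
    exact absurd (Finset.mem_univ a) h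

theorem coeff_pol_of_not (s : Fin 2 →₀ ℕ) (hs : ∀ a, ex (x a) ≠ s) : coeff s (pol x y) = 0 := by
  classical
  unfold pol
  rw [coeff_sum]
  apply Finset.sum_eq_zero
  intro a _
  rw [coeff_monomial, if_neg (hs a)]

theorem eval_pol (P : Fin 2 → R) : eval P (pol x y) =
    ∑ a, y a * (P 0 ^ x a 0 * P 1 ^ x a 1) := by
  unfold pol
  rw [map_sum]
  apply Finset.sum_congr rfl
  intro a _
  rw [eval_monomial, Finsupp.prod_fintype _ _ (fun i => pow_zero _), Fin.prod_univ_two]
  rfl

theorem deg_pol (e : ℕ) (hd : ∀ a, x a 0 + x a 1 ≤ e) : (pol x y).totalDegree ≤ e := by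
  classical
  unfold totalDegree
  apply Finset.sup_le
  intro s hs
  by_cases h : ∃ a, ex (x a) = s
  · obtain ⟨a, rfl⟩ := h
    rw [Finsupp.sum_fintype _ _ (fun i => rfl), Fin.sum_univ_two]
    exact hd a
  · push Not at h
    exact absurd (coeff_pol_of_not x y s h) (mem_support_iff.1 hs)

theorem map_pol {S : Type} [CommRing S] (f : R →+* S) : map f (pol x y) = pol x fun a => f (y a) := by
  unfold pol
  rw [map_sum]
  apply Finset.sum_congr rfl
  intro a _
  rw [map_monomial]

end

theorem cfb : CfbStmt := by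
  intro hBez hKrb hEnu d
  obtain ⟨B0, hB0⟩ := hBez d
  refine ⟨B0 + (Ld d).factorial + d * Ld d, ?_⟩
  intro G hG hGd N hN hS
  classical
  obtain ⟨e, he⟩ : ∃ e, e = G.totalDegree := ⟨_, rfl⟩
  obtain ⟨x, hx, hxe, -⟩ := hEnu e
  -- `G` is a combination of the monomials
  have hGpol : G = pol x (fun a => coeff (ex (x a)) G) := by
    ext s
    by_cases h : ∃ a, ex (x a) = s
    · obtain ⟨a, rfl⟩ := h
      rw [coeff_pol x _ hx]
    · push Not at h
      rw [coeff_pol_of_not x _ s h]
      by_contra hne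
      have h1 := le_totalDegree (mem_support_iff.2 hne)
      rw [← he, Finsupp.sum_fintype _ _ (fun i => rfl), Fin.sum_univ_two] at h1
      obtain ⟨a, ha⟩ := enum_surj e x hx hxe (fun i => s i) h1
      apply h a
      rw [ha]
      exact ex_surj s
  -- the points
  have hfin : {P : Fin 2 → ℤ | (∀ i, |P i| ≤ N) ∧ eval (fun i => (P i : ℚ)) G = 0}.Finite := by
    apply (Set.Finite.pi' (fun _ : Fin 2 => Set.finite_Icc (-(N : ℤ)) N)).subset
    intro P hP i
    exact ⟨(abs_le.1 (hP.1 i)).1, (abs_le.1 (hP.1 i)).2⟩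
  obtain ⟨T, hT⟩ := hfin.exists_finset_coe
  have hTm : ∀ P, P ∈ T ↔ (∀ i, |P i| ≤ N) ∧ eval (fun i => (P i : ℚ)) G = 0 := by
    intro P
    rw [← Finset.mem_coe, hT]
    rfl
  let A : Fin T.card → Fin (Ld e) → ℤ := fun i a =>
    (T.equivFin.symm i : Fin 2 → ℤ) 0 ^ x a 0 * (T.equivFin.symm i : Fin 2 → ℤ) 1 ^ x a 1
  have hN' : (1 : ℤ) ≤ N := by exact_mod_cast hN
  have hA : ∀ i a, |A i a| ≤ ((N ^ e : ℕ) : ℤ) := by
    intro i a
    have hP := ((hTm _).1 (T.equivFin.symm i).2).1
    calc |A i a| = |(T.equivFin.symm i : Fin 2 → ℤ) 0| ^ x a 0 *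
          |(T.equivFin.symm i : Fin 2 → ℤ) 1| ^ x a 1 := by
          rw [← abs_pow, ← abs_pow, ← abs_mul]
      _ ≤ (N : ℤ) ^ x a 0 * (N : ℤ) ^ x a 1 := by
          apply mul_le_mul (pow_le_pow_left₀ (abs_nonneg _) (hP 0) _)
            (pow_le_pow_left₀ (abs_nonneg _) (hP 1) _) (by positivity) (by positivity)
      _ = (N : ℤ) ^ (x a 0 + x a 1) := by rw [pow_add]
      _ ≤ (N : ℤ) ^ e := pow_le_pow_right₀ hN' (hxe a)
      _ = ((N ^ e : ℕ) : ℤ) := by push_cast; rfl
  have hker : ∃ y : Fin (Ld e) → ℚ, y ≠ 0 ∧ ∀ i, ∑ a, (A i a : ℚ) * y a = 0 := by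
    refine ⟨fun a => coeff (ex (x a)) G, ?_, ?_⟩
    · intro h
      apply hG.ne_zero
      rw [hGpol]
      unfold pol
      apply Finset.sum_eq_zero
      intro a _
      rw [h]
      exact map_zero _
    · intro i
      have hP := ((hTm _).1 (T.equivFin.symm i).2).2
      rw [hGpol, eval_pol] at hP
      rw [← hP]
      apply Finset.sum_congr rfl
      intro a _
      rw [mul_comm]
      push_cast [A]
      rfl
  obtain ⟨z, hz0, hzA, hzb⟩ := hKrb (Ld e) (N ^ e) T.card A (Nat.one_le_pow _ _ hN) hA hker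
  -- the new equation
  have hev : ∀ P : Fin 2 → ℤ, (∀ i, |P i| ≤ N) → eval (fun i => (P i : ℚ)) G = 0 →
      eval (fun i => (P i : ℚ)) (map (Int.castRingHom ℚ) (pol x z)) = 0 := by
    intro P h1 h2
    have h3 := hzA (T.equivFin ⟨P, (hTm P).2 ⟨h1, h2⟩⟩)
    have h4 : ∀ a, A (T.equivFin ⟨P, (hTm P).2 ⟨h1, h2⟩⟩) a = P 0 ^ x a 0 * P 1 ^ x a 1 := by
      intro a
      simp only [A, Equiv.symm_apply_apply]
    rw [map_pol, eval_pol]
    have h5 : ((∑ a, A (T.equivFin ⟨P, (hTm P).2 ⟨h1, h2⟩⟩) a * z a : ℤ) : ℚ) = 0 := by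
      rw [h3]
      rfl
    rw [← h5, Int.cast_sum]
    apply Finset.sum_congr rfl
    intro a _
    rw [h4, mul_comm]
    push_cast
    rfl
  have hne : map (Int.castRingHom ℚ) (pol x z) ≠ 0 := by
    intro h
    apply hz0
    funext a
    have h1 : coeff (ex (x a)) (map (Int.castRingHom ℚ) (pol x z)) = 0 := by
      rw [h]
      exact coeff_zero _
    rw [coeff_map, coeff_pol x z hx] at h1
    have h2 : ((z a : ℤ) : ℚ) = 0 := h1
    exact_mod_cast h2
  have hdeg : (map (Int.castRingHom ℚ) (pol x z)).totalDegree ≤ e := by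
    rw [map_pol]
    exact deg_pol x _ e hxe
  have hdvd : G ∣ map (Int.castRingHom ℚ) (pol x z) := by
    by_contra hnd
    have hrel : IsRelPrime G (map (Int.castRingHom ℚ) (pol x z)) :=
      hG.isRelPrime_iff_not_dvd.2 hnd
    have h1 := hB0 G _ hGd (hdeg.trans (he.le.trans hGd)) hrel
    have h2 : {P : Fin 2 → ℤ | (∀ i, |P i| ≤ N) ∧ eval (fun i => (P i : ℚ)) G = 0}.encard ≤
        (B0 : ℕ∞) := by
      refine le_trans ?_ h1
      have hinj : Function.Injective (fun (P : Fin 2 → ℤ) (i : Fin 2) => (P i : ℚ)) := by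
        intro P Q h
        funext i
        exact Int.cast_injective (congrFun h i)
      rw [← hinj.injOn.encard_image]
      apply Set.encard_le_encard
      rintro _ ⟨P, hP, rfl⟩
      exact ⟨hP.2, hev P hP.1 hP.2⟩
    have h3 := lt_of_lt_of_le hS h2
    have h4 : B0 + (Ld d).factorial + d * Ld d < B0 := by exact_mod_cast h3
    omega
  refine ⟨pol x z, ?_, ?_⟩
  · obtain ⟨Q, hQ⟩ := hdvd
    have hQ0 : Q ≠ 0 := by
      rintro rfl
      exact hne (by rw [hQ, mul_zero])
    have h1 := totalDegree_mul_of_isDomain hG.ne_zero hQ0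
    rw [← hQ, ← he] at h1
    have h2 : Q.totalDegree = 0 := by omega
    rw [totalDegree_eq_zero_iff_eq_C] at h2
    have h3 : coeff 0 Q ≠ 0 := by
      intro h
      rw [h, map_zero] at h2
      exact hQ0 h2
    have h4 : IsUnit Q := by
      rw [h2]
      exact (IsUnit.mk0 _ h3).map C
    rw [hQ]
    exact (associated_mul_unit_right G Q h4).symm
  · intro s
    have hLd : Ld e ≤ Ld d := by
      unfold Ld
      apply Finset.sum_le_sum_of_subset
      apply Finset.range_subset_range.2
      have := he.le.trans hGd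
      omega
    have hBN : (0 : ℤ) ≤ ((B0 + (Ld d).factorial + d * Ld d : ℕ) : ℤ) *
        (N : ℤ) ^ (B0 + (Ld d).factorial + d * Ld d) := by positivity
    by_cases h : ∃ a, ex (x a) = s
    · obtain ⟨a, rfl⟩ := h
      rw [coeff_pol x z hx]
      refine (hzb a).trans ?_
      apply mul_le_mul
      · have h1 := Nat.factorial_le hLd
        have h2 : (Ld e).factorial ≤ B0 + (Ld d).factorial + d * Ld d := by omega
        exact_mod_cast h2
      · rw [Nat.cast_pow, ← pow_mul]
        apply pow_le_pow_right₀ hN'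
        have h1 : e * Ld e ≤ d * Ld d := Nat.mul_le_mul (he.le.trans hGd) hLd
        omega
      · positivity
      · positivity
    · push Not at h
      rw [coeff_pol_of_not x z s h, abs_zero]
      exact hBN

end Pool.Agent.LPW.H44
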