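import Pool.Agent.LPW.StmtsF

/-!
# Squad LPW, row IRR: a family with an irreducible member is irreducible
-/

set_option autoImplicit false

open Polynomial NumberField

namespace Pool.Agent.LPW.H44

open Pool.Agent.LPW

theorem irr : IrrStmt := by
  intro R _ _ f φ n hf hn h
  obtain ⟨K, _, _, θ, hθ, hgen, hK⟩ := h
  have hfm : (f.map ((Int.castRingHom ℚ).comp φ)).Monic := hf.map _
  have hev : aeval (θ : K) (f.map ((Int.castRingHom ℚ).comp φ)) = 0 := by
    have h1 : aeval (θ : K) (f.map φ) = 0 := by
      have h2 := congrArg (algebraMap (𝓞 K) K) hθ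
      rw [map_zero, ← aeval_algebraMap_apply] at h2
      exact h2
    rw [← Polynomial.map_map, ← h1]
    exact aeval_map_algebraMap ℚ (θ : K) (f.map φ)
  have hint : IsIntegral ℚ (θ : K) := Algebra.IsIntegral.isIntegral _
  have hdeg : (minpoly ℚ (θ : K)).natDegree = n := by
    rw [← IntermediateField.adjoin.finrank hint, hgen, IntermediateField.finrank_top', hK]
  have heq : minpoly ℚ (θ : K) = f.map ((Int.castRingHom ℚ).comp φ) := by
    symm
    apply Polynomial.eq_of_monic_of_dvd_of_natDegree_le (minpoly.monic hint) hfm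
      (minpoly.dvd ℚ _ hev)
    rw [hf.natDegree_map, hn, hdeg]
  exact hf.irreducible_of_irreducible_map _ f (by rw [← heq]; exact minpoly.irreducible hint)

end Pool.Agent.LPW.H44
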